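import Mathlib
import Pool.Agent.R845.E3.Main
import Pool.Agent.R845.E3.Bas
import Pool.Agent.Y196.Sp.Fi

/-!
# A dominant rational map to a smooth cubic hypersurface given by cubic forms has a base point
-/

set_option autoImplicit false

namespace Pool.Agent.U723.CU

open MvPolynomial Pool.Agent.TH314.PD Module
open Pool.Agent.R845.E3 hiding spc
open Pool.Agent.Y196.Sp (spc spc_exists spc_apply)

noncomputable section

/-- a cubic form in no variables -/
theorem hom3_zero (H : MvPolynomial (Fin 0) ℂ) (hH : H.IsHomogeneous 3) : H = 0 := by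
  ext α
  rw [coeff_zero]
  by_contra h
  have h1 := hH h
  have h2 : α = 0 := Subsingleton.elim _ _
  rw [h2] at h1
  simp at h1

/-- **Existence of a base point.** -/
theorem base_pt {n P : ℕ} (hn : 3 ≤ n) {F : MvPolynomial (Fin (n + 2)) ℂ}
    (hF : F.IsHomogeneous 3) (hsm : Sm F) (H : Fin (n + 2) → MvPolynomial (Fin P) ℂ)
    (hH : ∀ i, (H i).IsHomogeneous 3) (hHF : aeval H F = 0)
    (hdom : ∀ (e : ℕ) (Q : MvPolynomial (Fin (n + 2)) ℂ), Q.IsHomogeneous e → aeval H Q = 0 →
      F ∣ Q) : ∃ b : Fin P → ℂ, b ≠ 0 ∧ ∀ i, eval b (H i) = 0 := by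
  classical
  have hF0 : F ≠ 0 := ne_zero_of_smooth (m := n + 1) hsm
  obtain rfl | ⟨N, rfl⟩ : P = 0 ∨ ∃ N, P = N + 1 := by
    cases P with
    | zero => exact Or.inl rfl
    | succ N => exact Or.inr ⟨N, rfl⟩
  · exfalso
    obtain ⟨Q, hQ⟩ := hdom 1 (X 0) (isHomogeneous_X ℂ 0) (by
      rw [aeval_X]
      exact hom3_zero _ (hH 0))
    have hQ0 : Q ≠ 0 := by
      rintro rfl
      rw [mul_zero] at hQ
      exact X_ne_zero _ hQ
    have h1 := totalDegree_mul_of_isDomain hF0 hQ0
    rw [← hQ, totalDegree_X, hF.totalDegree hF0] at h1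
    omega
  -- the affine parametrization
  let D : Fin (N + 1) → MvPolynomial (Fin N) ℂ := Fin.cons 1 X
  let G : Fin (n + 2) → MvPolynomial (Fin N) ℂ := fun i => aeval D (H i)
  have hG : aeval G F = 0 := by
    have h1 := comp_aeval_apply (f := H) (aeval D) F
    rw [hHF, map_zero] at h1
    exact h1.symm
  have hGd : ∀ (e : ℕ) (Q : MvPolynomial (Fin (n + 2)) ℂ), Q.IsHomogeneous e →
      aeval G Q = 0 → F ∣ Q := by
    intro e Q hQ h0
    refine hdom e Q hQ ?_
    have h1 : (aeval H Q).IsHomogeneous (3 * e) := hQ.aeval H hH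
    refine hom_zero h1 ?_
    have h2 := comp_aeval_apply (f := H) (aeval D) Q
    rw [h2]
    exact h0
  obtain ⟨c, g, hg, hcg, h1, h2⟩ := spc_exists (by norm_num) F hF hsm G hG hGd
  -- the homogeneous version of the substitution
  let S : Fin (N + 1) → MvPolynomial (Fin (n + 1)) ℂ :=
    Fin.cons (X 0) fun l => C (c l) * X 0 + ∑ s, if g s = l then X s.succ else 0
  have hS : ∀ l, (S l).IsHomogeneous 1 := by
    intro l
    refine Fin.cases ?_ (fun l => ?_) l
    · exact isHomogeneous_X ℂ 0
    · change (C (c l) * X 0 + ∑ s, if g s = l then X s.succ else 0 :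
        MvPolynomial (Fin (n + 1)) ℂ).IsHomogeneous 1
      refine IsHomogeneous.add ?_ (IsHomogeneous.sum _ _ _ fun s _ => ?_)
      · have h3 := (isHomogeneous_C (Fin (n + 1)) (c l)).mul (isHomogeneous_X ℂ (0 : Fin (n + 1)))
        rwa [zero_add] at h3
      · split_ifs
        · exact isHomogeneous_X ℂ _
        · exact isHomogeneous_zero _ _ _
  let H' : Fin (n + 2) → MvPolynomial (Fin (n + 1)) ℂ := fun i => aeval S (H i)
  have hH' : ∀ i, (H' i).IsHomogeneous 3 := fun i => by
    have h3 := (hH i).aeval S hS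
    rwa [one_mul] at h3
  have hSc : ∀ l, aeval (Fin.cons 1 X : Fin (n + 1) → MvPolynomial (Fin n) ℂ) (S l) =
      aeval (spc c g) (D l) := by
    intro l
    refine Fin.cases ?_ (fun l => ?_) l
    · change aeval _ (X 0) = aeval _ 1
      rw [aeval_X, Fin.cons_zero, map_one]
    · change aeval _ (C (c l) * X 0 + ∑ s, if g s = l then X s.succ else 0) = aeval _ (X l)
      rw [aeval_X, map_add, map_mul, aeval_X, Fin.cons_zero, mul_one, map_sum]
      unfold spc
      congr 1
      · rw [aeval_C]
        rfl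
      · refine Finset.sum_congr rfl fun s _ => ?_
        split_ifs
        · rw [aeval_X, Fin.cons_succ]
        · rw [map_zero]
  have hHG : ∀ i, aeval (Fin.cons 1 X : Fin (n + 1) → MvPolynomial (Fin n) ℂ) (H' i) =
      aeval (spc c g) (G i) := by
    intro i
    have h3 := comp_aeval_apply (f := S)
      (aeval (Fin.cons 1 X : Fin (n + 1) → MvPolynomial (Fin n) ℂ)) (H i)
    have h4 := comp_aeval_apply (f := D) (aeval (spc c g)) (H i)
    change _ = aeval (spc c g) (aeval D (H i))
    rw [h4]
    change aeval _ (aeval S (H i)) = _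
    rw [h3, funext hSc]
  have hH'F : aeval H' F = 0 := by
    have h3 := comp_aeval_apply (f := H) (aeval S) F
    rw [hHF, map_zero] at h3
    exact h3.symm
  have hdh : dh H' = fun i => algebraMap (MvPolynomial (Fin n) ℂ) (Rn n)
      (aeval (spc c g) (G i)) := by
    funext i
    unfold dh
    rw [hHG]
  -- the degree
  have hdeg : ∀ i, (aeval (spc c g) (G i)).totalDegree ≤ 3 := by
    intro i
    rw [← hHG]
    have h3 : (Fin.cons 1 X : Fin (n + 1) → MvPolynomial (Fin n) ℂ) =
        sub (Fin.cons 1 0) (Fin.cons 0 fun l s => if l = s then 1 else 0) := by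
      funext l
      unfold sub
      refine Fin.cases ?_ (fun l => ?_) l
      · simp only [Fin.cons_zero, C_1, Pi.zero_apply, C_0, zero_mul, Finset.sum_const_zero,
          add_zero]
      · simp only [Fin.cons_succ, Pi.zero_apply, C_0, zero_add]
        rw [Finset.sum_eq_single l]
        · rw [if_pos rfl, C_1, one_mul]
        · intro s _ hs
          rw [if_neg fun h => hs h.symm, C_0, zero_mul]
        · intro h
          exact absurd (Finset.mem_univ _) h
    rw [h3]
    exact aeval_sub_deg _ _ _ (hH' i).totalDegree_le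
  obtain ⟨hfin, hb⟩ := bound (k := 3) (by norm_num) F hF hsm (fun i => aeval (spc c g) (G i))
    hdeg h1 h2
  have hb3 : 3 * finrank (ratioField fun i => algebraMap (MvPolynomial (Fin n) ℂ) (Rn n)
      (aeval (spc c g) (G i))) (Rn n) ≤ n + 1 := by
    have h3 : finrank (ratioField fun i => algebraMap (MvPolynomial (Fin n) ℂ) (Rn n)
      (aeval (spc c g) (G i))) (Rn n) * (3 * 2 ^ n) ≤ (n + 1) * 2 ^ n := hb
    rw [← mul_assoc] at h3
    have h4 := Nat.le_of_mul_le_mul_right h3 (by positivity)
    omega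
  obtain ⟨b, hb0, hbH⟩ : ∃ b : Fin (n + 1) → ℂ, b ≠ 0 ∧ ∀ i, eval b (H' i) = 0 := by
    by_contra hcon
    push Not at hcon
    have h3 := bas n F hF hF0 H' hH' (fun b hb => by
      by_contra hb0
      obtain ⟨i, hi⟩ := hcon b hb0
      exact hi (hb i)) hH'F (by rw [hdh]; exact hfin)
    rw [hdh] at h3
    have h4 := pow_gt n (by omega)
    omega
  refine ⟨fun l => eval b (S l), ?_, fun i => ?_⟩
  · intro h0
    apply hb0
    have h3 : b 0 = 0 := by
      have h4 := congrFun h0 0
      simp only [Pi.zero_apply] at h4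
      change eval b (X 0) = 0 at h4
      rwa [eval_X] at h4
    funext l
    rw [Pi.zero_apply]
    refine Fin.cases h3 (fun s => ?_) l
    have h4 := congrFun h0 (g s).succ
    simp only [Pi.zero_apply] at h4
    change eval b (C (c (g s)) * X 0 + ∑ t, if g t = g s then X t.succ else 0) = 0 at h4
    rw [Finset.sum_eq_single s] at h4
    · rw [if_pos rfl, map_add, map_mul, eval_X, eval_X, h3, mul_zero, zero_add] at h4
      exact h4
    · intro t _ ht
      rw [if_neg fun h => ht (hg h)]
    · intro h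
      exact absurd (Finset.mem_univ _) h
  · have h3 := hbH i
    have h4 := comp_aeval_apply (f := S) (aeval b : MvPolynomial (Fin (n + 1)) ℂ →ₐ[ℂ] ℂ) (H i)
    change eval b (aeval S (H i)) = 0 at h3
    rw [aeval_eq_eval] at h4
    rw [h3, aeval_eq_eval] at h4
    exact h4.symm

end

end Pool.Agent.U723.CU
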