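import Mathlib
import Pool.Agent.R845.E3.Refl
import Pool.Agent.R845.E3.Sec

/-!
# Conics over a field through a generic point of odd degree

`X = (F = 0)` is a smooth cubic hypersurface which contains the linear subspace `W = (y = 0)`, `x` is a
generic point of `X` over the field `M`, of odd degree, and `u² a + u β + x` is a conic over `M` in `X`
with `a ∈ W(M)`. Then the generic fibre of the projection from `W` has a rational point.
-/

set_option autoImplicit false

namespace Pool.Agent.U723.CU

open MvPolynomial Pool.Agent.TH314.PD Module Pool.Agent.Y201.C3 IntermediateField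
open Pool.Agent.R845.T2 Pool.Agent.R845.E3

noncomputable section

/-- coefficients of a polynomial of degree at most six -/
theorem coeffs7 {M : Type} [Field M] (c : Fin 7 → M)
    (h : ∑ i, Polynomial.C (c i) * Polynomial.X ^ (i : ℕ) = 0) : ∀ i, c i = 0 := by
  intro i
  have h1 := congrArg (fun p => Polynomial.coeff p i) h
  simp only [Polynomial.finsetSum_coeff, Polynomial.coeff_C_mul, Polynomial.coeff_X_pow,
    Polynomial.coeff_zero] at h1
  rw [Finset.sum_eq_single i] at h1
  · simpa using h1
  · intro j _ hj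
    rw [if_neg, mul_zero]
    intro h2
    exact hj (Fin.ext h2.symm)
  · intro h2
    exact absurd (Finset.mem_univ i) h2

/-- the relations between the values of the trilinear form on a conic -/
theorem conic_rel {N : ℕ} {M : Type} [Field M] [Algebra ℂ M]
    {T : Fin N → Fin N → Fin N → ℂ} (hT : SymG T) {F : MvPolynomial (Fin N) ℂ}
    (hFT : F = Bg T X X X) (a β x : Fin N → M)
    (h : aeval (fun i => Polynomial.X ^ 2 * Polynomial.C (a i) + Polynomial.X *
      Polynomial.C (β i) + Polynomial.C (x i)) F = 0) :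
    Bg T x x x = 0 ∧ 3 * Bg T β x x = 0 ∧ 3 * Bg T a x x + 3 * Bg T β β x = 0 ∧
    6 * Bg T a β x + Bg T β β β = 0 ∧ 3 * Bg T a a x + 3 * Bg T a β β = 0 ∧
    3 * Bg T a a β = 0 ∧ Bg T a a a = 0 := by
  classical
  have hev : ∀ {R : Type} [CommRing R] [Algebra ℂ R] (v : Fin N → R),
      aeval v F = Bg T v v v := by
    intro R _ _ v
    conv_lhs => rw [hFT]
    exact aeval_frmG T v
  have hC : ∀ u v w : Fin N → M, Bg T (fun i => Polynomial.C (u i)) (fun i => Polynomial.C (v i))
      (fun i => Polynomial.C (w i)) = Polynomial.C (Bg T u v w) := fun u v w =>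
    (map_Bg (Polynomial.CAlgHom : M →ₐ[ℂ] Polynomial M) T u v w).symm
  have h2 : (fun i => Polynomial.X ^ 2 * Polynomial.C (a i) + Polynomial.X *
      Polynomial.C (β i) + Polynomial.C (x i)) =
      fun i => Polynomial.X ^ 2 * Polynomial.C (a i) + Polynomial.X *
      Polynomial.C (β i) + 1 * Polynomial.C (x i) := by
    funext i
    rw [one_mul]
  rw [h2, hev, Bg_span3 hT (fun i => Polynomial.C (a i)) (fun i => Polynomial.C (β i))
    (fun i => Polynomial.C (x i)), hC, hC, hC, hC, hC, hC, hC, hC, hC, hC] at h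
  have o3 : Polynomial.C (3 : M) = 3 := rfl
  have o6 : Polynomial.C (6 : M) = 6 := rfl
  have hz := coeffs7 ![Bg T x x x, 3 * Bg T β x x, 3 * Bg T a x x + 3 * Bg T β β x,
    6 * Bg T a β x + Bg T β β β, 3 * Bg T a a x + 3 * Bg T a β β, 3 * Bg T a a β,
    Bg T a a a] (by
      simp only [Fin.sum_univ_succ, Fin.sum_univ_zero]
      simp only [Matrix.cons_val_zero, Matrix.cons_val_succ, Fin.val_zero, Fin.val_succ, map_add,
        map_mul, o3, o6]
      linear_combination h)
  exact ⟨hz 0, hz 1, hz 2, hz 3, hz 4, hz 5, hz 6⟩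

/-- a line over `M` in `X` through a generic point: the degree is even -/
theorem line_even {r : ℕ} {F : MvPolynomial (Fin (r + 1)) ℂ} (hF : F.IsHomogeneous 3)
    (hsm : Sm F) {M : Type} [Field M] [Algebra ℂ M] (x u : Fin (r + 1) → M) (hG : Gp F x)
    (hxu : LinearIndependent M ![x, u])
    (h : aeval (fun j => Polynomial.C (x j) + Polynomial.X * Polynomial.C (u j)) F = 0) :
    2 ∣ finrank (ratioField x) M := by
  refine Pool.Agent.Y201.LI.contact hF (by norm_num) hsm x hG.1 hG.2 u hxu 0 ?_
  rw [h, Polynomial.C_0, zero_mul]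

/-- the residual line of the plane of a conic -/
theorem resid_line {N : ℕ} {M : Type} [Field M] [Algebra ℂ M]
    {T : Fin N → Fin N → Fin N → ℂ} (hT : SymG T) {F : MvPolynomial (Fin N) ℂ}
    (hFT : F = Bg T X X X) (a β x : Fin N → M)
    (h : aeval (fun i => Polynomial.X ^ 2 * Polynomial.C (a i) + Polynomial.X *
      Polynomial.C (β i) + Polynomial.C (x i)) F = 0) (A B D : M)
    (hA : 3 * Bg T x x a = A) (hB : 3 * Bg T x a a = B) (hD : 6 * Bg T a β x = D) :
    aeval (fun j => Polynomial.C (B * x j - A * a j) + Polynomial.X *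
      Polynomial.C (B * β j - D * a j)) F = 0 := by
  classical
  obtain ⟨z0, z1, z2, z3, z4, z5, z6⟩ := conic_rel hT hFT a β x h
  have hev : ∀ {R : Type} [CommRing R] [Algebra ℂ R] (v : Fin N → R),
      aeval v F = Bg T v v v := by
    intro R _ _ v
    conv_lhs => rw [hFT]
    exact aeval_frmG T v
  have sA : 3 * Bg T a x x = A := by
    rw [← hA, Bg_swap12 hT a x x, Bg_swap23 hT x a x]
  have sB : 3 * Bg T a a x = B := by
    rw [← hB, Bg_swap23 hT a a x, Bg_swap12 hT a x a]
  have h1 : (fun j => Polynomial.C (B * x j - A * a j) + Polynomial.X *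
      Polynomial.C (B * β j - D * a j)) =
      fun j => (-(Polynomial.C A) - Polynomial.C D * Polynomial.X) * Polynomial.C (a j) +
        (Polynomial.C B * Polynomial.X) * Polynomial.C (β j) +
        Polynomial.C B * Polynomial.C (x j) := by
    funext j
    simp only [map_sub, map_mul]
    ring
  have hC : ∀ u v w : Fin N → M, Bg T (fun i => Polynomial.C (u i))
      (fun i => Polynomial.C (v i)) (fun i => Polynomial.C (w i)) =
      Polynomial.C (Bg T u v w) := fun u v w =>
    (map_Bg (Polynomial.CAlgHom : M →ₐ[ℂ] Polynomial M) T u v w).symm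
  rw [h1, hev, Bg_span3 hT (fun i => Polynomial.C (a i)) (fun i => Polynomial.C (β i))
    (fun i => Polynomial.C (x i)), hC, hC, hC, hC, hC, hC, hC, hC, hC, hC]
  have c0 := congrArg Polynomial.C z0
  have c1 := congrArg Polynomial.C z1
  have c2 := congrArg Polynomial.C z2
  have c3 := congrArg Polynomial.C z3
  have c4 := congrArg Polynomial.C z4
  have c5 := congrArg Polynomial.C z5
  have c6 := congrArg Polynomial.C z6
  have dA := congrArg Polynomial.C sA
  have dB := congrArg Polynomial.C sB
  have dD := congrArg Polynomial.C hD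
  have o3 : Polynomial.C (3 : M) = 3 := rfl
  have o6 : Polynomial.C (6 : M) = 6 := rfl
  simp only [map_add, map_mul, map_zero, o3, o6] at c0 c1 c2 c3 c4 c5 c6 dA dB dD ⊢
  set U : Polynomial M := -Polynomial.C A - Polynomial.C D * Polynomial.X with hU
  set V : Polynomial M := Polynomial.C B * Polynomial.X with hV
  set W : Polynomial M := Polynomial.C B with hWd
  have h0 : U * Polynomial.C B + V * Polynomial.C D + W * Polynomial.C A = 0 := by
    rw [hU, hV, hWd]
    ring
  linear_combination (U * W - V ^ 2) * h0 + U ^ 3 * c6 + U ^ 2 * V * c5 + U ^ 2 * W * dB +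
    U * V ^ 2 * (c4 - dB) + U * V * W * dD + U * W ^ 2 * dA + V ^ 3 * (c3 - dD) +
    V ^ 2 * W * (c2 - dA) + V * W ^ 2 * c1 + W ^ 3 * c0

/-- **A conic through a generic point of odd degree which meets `W`.** -/
theorem ccp (spr : S_SPR) (desc : S_DESC) {k m : ℕ}
    {F : MvPolynomial (Fin (k + 1 + (m + 1))) ℂ} (hF : F.IsHomogeneous 3) (hsm : Sm F)
    (hW : VanW F) {M : Type} [Field M] [Algebra ℂ M] (x : Fin (k + 1 + (m + 1)) → M)
    (hG : Gp F x) (hodd : Odd (finrank (ratioField x) M)) (α : Fin (k + 1) → M) (hα : α ≠ 0)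
    (β : Fin (k + 1 + (m + 1)) → M)
    (hconic : aeval (fun i => Polynomial.X ^ 2 *
      Polynomial.C (Fin.append α (0 : Fin (m + 1) → M) i) + Polynomial.X *
      Polynomial.C (β i) + Polynomial.C (x i)) F = 0) : Iso F := by
  classical
  have tan : S_TAN := tan_of div (nt Pool.Agent.Y201.LI.hT1) fi fd
  obtain ⟨T, hT, hFT⟩ := exists_tri F hF
  set a : Fin (k + 1 + (m + 1)) → M := Fin.append α (0 : Fin (m + 1) → M) with ha
  have ha0 : ∀ j, a (Fin.natAdd (k + 1) j) = 0 := by
    intro j
    rw [ha, Fin.append_right]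
    rfl
  have hane : a ≠ 0 := by
    intro h0
    apply hα
    funext i
    have h1 := congrFun h0 (Fin.castAdd (m + 1) i)
    rwa [ha, Fin.append_left] at h1
  obtain ⟨z0, z1, z2, z3, z4, z5, z6⟩ := conic_rel hT hFT a β x hconic
  have hodd2 : ¬ 2 ∣ finrank (ratioField x) M := fun h =>
    (Nat.not_even_iff_odd.2 hodd) (even_iff_two_dvd.2 h)
  have hx0 : ∀ i, x i ≠ 0 := coord_ne_zero hF (by norm_num) x hG.2
  have hxa : LinearIndependent M ![x, a] := by
    rw [LinearIndependent.pair_iff]
    intro s r hsr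
    have h1 := congrFun hsr (Fin.natAdd (k + 1) 0)
    simp only [Pi.add_apply, Pi.smul_apply, smul_eq_mul, ha0, mul_zero, add_zero,
      Pi.zero_apply] at h1
    have hs := (mul_eq_zero.1 h1).resolve_right (hx0 _)
    refine ⟨hs, ?_⟩
    rw [hs, zero_smul, zero_add] at hsr
    exact (smul_eq_zero.1 hsr).resolve_right hane
  have haF : aeval a F = 0 := vanW_aeval hW α
  have hline := line_shape hT hFT x a hG.1 haF
  obtain ⟨A, hA⟩ : ∃ A, 3 * Bg T x x a = A := ⟨_, rfl⟩
  obtain ⟨B, hB⟩ : ∃ B, 3 * Bg T x a a = B := ⟨_, rfl⟩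
  obtain ⟨D, hD⟩ : ∃ D, 6 * Bg T a β x = D := ⟨_, rfl⟩
  rw [hA, hB] at hline
  have hB0 : B ≠ 0 := by
    intro h0
    rw [h0, Polynomial.C_0, zero_mul, add_zero] at hline
    exact hodd2 (tan (k + 1 + m) 3 F hF (by norm_num) hsm M x a A hxa hG.1 hG.2 hline)
  have sB : 3 * Bg T a a x = B := by
    rw [← hB, Bg_swap23 hT a a x, Bg_swap12 hT a x a]
  have hres := resid_line hT hFT a β x hconic A B D hA hB hD
  -- the third point of the line
  have hthird : Gp F (fun j => B * x j - A * a j) →
      2 ∣ finrank (ratioField fun j => B * x j - A * a j) M := by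
    intro hG'
    refine line_even (r := k + 1 + m) hF hsm _ (fun j => B * β j - D * a j) hG' ?_ hres
    rw [LinearIndependent.pair_iff]
    intro s r hsr
    have hcomp : ∀ j, s * (B * x j - A * a j) + r * (B * β j - D * a j) = 0 := by
      intro j
      exact congrFun hsr j
    have hr : r = 0 := by
      by_contra hr
      obtain ⟨c, d, hβ⟩ : ∃ c d : M, β = fun j => c * x j + d * a j := by
        refine ⟨-s / r, (s * A + r * D) / (r * B), ?_⟩
        funext j
        have h1 := hcomp j
        field_simp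
        linear_combination h1
      have h1 : Bg T a a β = c * Bg T a a x := by
        rw [hβ, Bg_add3 T a a (fun j => c * x j) (fun j => d * a j), Bg_smul3, Bg_smul3, z6,
          mul_zero, add_zero]
      have hc0 : c = 0 := by
        have h2 : c * B = 0 := by
          rw [← sB]
          rw [h1] at z5
          linear_combination z5
        exact (mul_eq_zero.1 h2).resolve_right hB0
      have hβ' : β = fun j => d * a j := by
        rw [hβ]
        funext j
        rw [hc0, zero_mul, zero_add]
      have h3 : Bg T a β β = 0 := by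
        rw [hβ', Bg_smul2, Bg_smul3, z6, mul_zero, mul_zero]
      rw [h3, mul_zero, add_zero, sB] at z4
      exact hB0 z4
    refine ⟨?_, hr⟩
    have h1 := hcomp (Fin.natAdd (k + 1) 0)
    rw [hr, zero_mul, add_zero, ha0, mul_zero, sub_zero] at h1
    exact (mul_eq_zero.1 h1).resolve_right (mul_ne_zero hB0 (hx0 _))
  have hA0 : A ≠ 0 := by
    intro h0
    have h1 : ∀ j, (fun j => B * x j - A * a j) j = B * x j := by
      intro j
      simp only [h0, zero_mul, sub_zero]
    obtain ⟨h2, h3⟩ := gp_smul hF hB0 h1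
    exact hodd2 (h3 ▸ hthird (h2.2 hG))
  have hpn : ¬ Gp F a := by
    intro h
    exact coord_ne_zero hF (by norm_num) a h.2 (Fin.natAdd (k + 1) 0) (ha0 0)
  obtain ⟨hygen, hyodd⟩ := p3 (k + 1 + m) F hF hsm M x a A B hxa hG hodd hpn hA0 hB0 hline
    hthird
  refine iso_of_odd spr desc hF hW
    (fun j => algebraMap (Polynomial M) (FractionRing (Polynomial M)) (Polynomial.C (x j)))
    (fun j => algebraMap (Polynomial M) (FractionRing (Polynomial M))
      (Polynomial.C (x j) + Polynomial.X * Polynomial.C (a j))) ?_ hygen ?_ hyodd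
  · have h1 := comp_aeval_apply (f := x) ((IsScalarTower.toAlgHom ℂ (Polynomial M)
      (FractionRing (Polynomial M))).comp (Polynomial.CAlgHom : M →ₐ[ℂ] Polynomial M)) F
    rw [hG.1, map_zero] at h1
    exact h1.symm
  · intro j
    simp only [ha0, Polynomial.C_0, mul_zero, add_zero]

end

end Pool.Agent.U723.CU
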