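import Mathlib
import Pool.Agent.U723.CU.Conic
import Pool.Agent.U723.CU.Base

/-!
# Base points at which all the cubic forms vanish to the second order
-/

set_option autoImplicit false

namespace Pool.Agent.U723.CU

open MvPolynomial Pool.Agent.TH314.PD Module Pool.Agent.Y201.C3 IntermediateField
open Pool.Agent.R845.T2 Pool.Agent.R845.E3

noncomputable section

theorem ne_of_C {R : Type} [CommRing R] [IsDomain R] [Algebra ℂ R] {z : ℂ} (hz : z ≠ 0) :
    algebraMap ℂ R z ≠ 0 := by
  rw [Ne, map_eq_zero_iff _ (algebraMap ℂ R).injective]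
  exact hz

/-- a line which lies on the hypersurface -/
theorem line_all {N : ℕ} {R : Type} [CommRing R] [IsDomain R] [Algebra ℂ R]
    {F : MvPolynomial (Fin N) ℂ} (hF : F.IsHomogeneous 3) (p q : Fin N → R)
    (h : ∀ u : R, aeval (fun i => p i + u * q i) F = 0) (a u : R) :
    aeval (fun i => a * p i + u * q i) F = 0 := by
  classical
  obtain ⟨T, hT, hFT⟩ := exists_tri F hF
  have hev : ∀ (v : Fin N → R), aeval v F = Bg T v v v := by
    intro v
    conv_lhs => rw [hFT]
    exact aeval_frmG T v
  have key : ∀ a u : R, aeval (fun i => a * p i + u * q i) F =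
      a ^ 3 * Bg T p p p + 3 * a ^ 2 * u * Bg T p p q + 3 * a * u ^ 2 * Bg T p q q +
        u ^ 3 * Bg T q q q := by
    intro a u
    have h1 : (fun i => a * p i + u * q i) = fun i => a * p i + u * q i + 0 * q i := by
      funext i
      ring
    rw [h1, hev, Bg_span3 hT p q q]
    ring
  have h1 : ∀ u : R, Bg T p p p + 3 * u * Bg T p p q + 3 * u ^ 2 * Bg T p q q +
      u ^ 3 * Bg T q q q = 0 := by
    intro u
    have h2 := key 1 u
    have h3 : (fun i => (1 : R) * p i + u * q i) = fun i => p i + u * q i := by
      funext i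
      ring
    rw [h3, h u] at h2
    linear_combination -h2
  have e0 := h1 0
  have e1 := h1 1
  have e2 := h1 (-1)
  have e3 := h1 2
  have h6 : (6 : R) ≠ 0 := by
    have h7 := ne_of_C (R := R) (z := 6) (by norm_num)
    rwa [map_ofNat] at h7
  have c0 : Bg T p p p = 0 := by linear_combination e0
  have c2 : Bg T p q q = 0 := by
    apply mul_left_cancel₀ h6
    linear_combination e1 + e2 - 2 * e0
  have c3 : Bg T q q q = 0 := by
    apply mul_left_cancel₀ h6
    linear_combination e3 - 2 * e1 + e0 - 6 * c2
  have c1 : Bg T p p q = 0 := by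
    apply mul_left_cancel₀ h6
    linear_combination e3 - e0 - 12 * c2 - 8 * c3
  rw [key, c0, c1, c2, c3]
  ring

/-- dividing a vector of polynomials by a power of `X` -/
theorem divX {M : Type} [Field M] {N : ℕ} (w : Fin N → Polynomial M) (i : Fin N) (hi : w i ≠ 0) :
    ∃ (e : ℕ) (w' : Fin N → Polynomial M), (∀ l, w l = Polynomial.X ^ e * w' l) ∧
      ∃ l, (w' l).eval 0 ≠ 0 := by
  induction hd : (w i).natDegree using Nat.strong_induction_on generalizing w with
  | _ d ih =>
    by_cases h0 : ∃ l, (w l).eval 0 ≠ 0
    · exact ⟨0, w, fun l => by rw [pow_zero, one_mul], h0⟩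
    · push Not at h0
      have h1 : ∀ l, ∃ v, w l = Polynomial.X * v := by
        intro l
        have h2 : Polynomial.X ∣ w l := by
          rw [Polynomial.X_dvd_iff, Polynomial.coeff_zero_eq_eval_zero]
          exact h0 l
        exact h2
      choose v hv using h1
      have hvi : v i ≠ 0 := by
        intro h2
        apply hi
        rw [hv, h2, mul_zero]
      have hdv : (v i).natDegree < d := by
        rw [← hd, hv i, Polynomial.natDegree_mul Polynomial.X_ne_zero hvi, Polynomial.natDegree_X]
        omega
      obtain ⟨e, w', h2, h3⟩ := ih _ hdv v hvi rfl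
      refine ⟨e + 1, w', fun l => ?_, h3⟩
      rw [hv, h2, pow_succ]
      ring

/-- **Degeneration of lines**: a family of lines on the hypersurface over `M[s]`, through the point
`p`, possibly degenerate for `s = 0`, gives a line over `M` through the point `p(0)`. -/
theorem line_limit {r : ℕ} {F : MvPolynomial (Fin (r + 1)) ℂ} (hF : F.IsHomogeneous 3)
    {M : Type} [Field M] [Algebra ℂ M] (p q : Fin (r + 1) → Polynomial M)
    (h : ∀ u : Polynomial M, aeval (fun i => p i + u * q i) F = 0) (i0 : Fin (r + 1))
    (hi0 : (p i0).eval 0 ≠ 0) (hpq : ∃ i j, p i * q j ≠ p j * q i) :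
    ∃ v : Fin (r + 1) → M, LinearIndependent M ![fun i => (p i).eval 0, v] ∧
      aeval (fun j => Polynomial.C ((p j).eval 0) + Polynomial.X * Polynomial.C (v j)) F = 0 := by
  classical
  have hp0 : p i0 ≠ 0 := by
    intro h0
    apply hi0
    rw [h0, Polynomial.eval_zero]
  set w : Fin (r + 1) → Polynomial M := fun l => p i0 * q l - q i0 * p l with hw
  obtain ⟨l0, hl0⟩ : ∃ l, w l ≠ 0 := by
    by_contra hcon
    push Not at hcon
    obtain ⟨i, j, hij⟩ := hpq
    apply hij
    apply mul_left_cancel₀ hp0
    have h1 := hcon i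
    have h2 := hcon j
    simp only [hw] at h1 h2
    linear_combination p i * h2 - p j * h1
  obtain ⟨e, w', hw', l1, hl1⟩ := divX w l0 hl0
  have hwi0 : w' i0 = 0 := by
    have h1 : w i0 = 0 := by
      simp only [hw]
      ring
    rw [hw'] at h1
    exact (mul_eq_zero.1 h1).resolve_left (pow_ne_zero _ Polynomial.X_ne_zero)
  have hall := line_all hF p q h
  have hall' : ∀ a u : Polynomial M, aeval (fun i => a * p i + u * w' i) F = 0 := by
    intro a u
    have h1 : (fun i => Polynomial.X ^ e * (a * p i + u * w' i)) =
        fun i => (Polynomial.X ^ e * a - u * q i0) * p i + (u * p i0) * q i := by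
      funext i
      have h2 := hw' i
      simp only [hw] at h2
      linear_combination -u * h2
    have h3 := aeval_smul_form hF (Polynomial.X ^ e : Polynomial M) (fun i => a * p i + u * w' i)
    rw [h1, hall] at h3
    exact (mul_eq_zero.1 h3.symm).resolve_left (pow_ne_zero _ (pow_ne_zero _ Polynomial.X_ne_zero))
  refine ⟨fun l => (w' l).eval 0, ?_, ?_⟩
  · rw [LinearIndependent.pair_iff]
    intro s t hst
    have h1 : ∀ j, s * (p j).eval 0 + t * (w' j).eval 0 = 0 := fun j => congrFun hst j
    have hs : s = 0 := by
      have h2 := h1 i0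
      rw [hwi0, Polynomial.eval_zero, mul_zero, add_zero] at h2
      exact (mul_eq_zero.1 h2).resolve_right hi0
    refine ⟨hs, ?_⟩
    have h2 := h1 l1
    rw [hs, zero_mul, zero_add] at h2
    exact (mul_eq_zero.1 h2).resolve_right hl1
  · have : Infinite M := Infinite.of_injective (algebraMap ℂ M) (algebraMap ℂ M).injective
    apply Polynomial.funext
    intro u
    rw [Polynomial.eval_zero]
    have h1 := comp_aeval_apply (f := fun j => Polynomial.C ((p j).eval 0) +
      Polynomial.X * Polynomial.C ((w' j).eval 0)) ((Polynomial.aeval u).restrictScalars ℂ) F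
    change Polynomial.aeval u _ = _ at h1
    rw [Polynomial.coe_aeval_eq_eval] at h1
    rw [h1]
    have h2 := comp_aeval_apply (f := fun i => (1 : Polynomial M) * p i +
      Polynomial.C u * w' i) ((Polynomial.aeval (0 : M)).restrictScalars ℂ) F
    rw [hall' 1 (Polynomial.C u), map_zero] at h2
    refine Eq.trans ?_ h2.symm
    congr 2
    funext j
    change Polynomial.aeval u _ = Polynomial.aeval (0 : M) _
    simp only [Polynomial.coe_aeval_eq_eval, Polynomial.eval_add, Polynomial.eval_C,
      Polynomial.eval_mul, Polynomial.eval_X, Polynomial.eval_one]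
    ring

end

end Pool.Agent.U723.CU
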