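import Mathlib
import Pool.Agent.U723.CU.Lines

/-!
# Maps given by cubic forms: if all of them vanish to the second order at every base point, then
there is a line through the generic point
-/

set_option autoImplicit false
set_option linter.unusedSectionVars false

namespace Pool.Agent.U723.CU

open MvPolynomial Pool.Agent.TH314.PD Module Pool.Agent.Y201.C3 IntermediateField
open Pool.Agent.R845.T2 Pool.Agent.R845.E3

noncomputable section

section

variable {σ : Type} [Fintype σ] [DecidableEq σ] {R : Type} [CommRing R] [Algebra ℂ R]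

/-- the coefficients of the linear form `y ↦ S(b, b', y)` -/
def cf (S : σ → σ → σ → ℂ) (b b' : σ → ℂ) (l : σ) : ℂ := ∑ i, ∑ j, S i j l * b i * b' j

/-- a complex point as a point over `R` -/
def cp (R : Type) [CommRing R] [Algebra ℂ R] (b : σ → ℂ) : σ → R := fun i => algebraMap ℂ R (b i)

theorem Bg_cf (S : σ → σ → σ → ℂ) (b b' : σ → ℂ) (y : σ → R) :
    Bg S (cp R b) (cp R b') y = ∑ l, algebraMap ℂ R (cf S b b' l) * y l := by
  unfold Bg cf cp
  simp only [map_sum, map_mul, Finset.sum_mul]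
  have h1 : ∀ i : σ, ∑ j : σ, ∑ k : σ, algebraMap ℂ R (S i j k) * algebraMap ℂ R (b i) *
      algebraMap ℂ R (b' j) * y k = ∑ k : σ, ∑ j : σ, algebraMap ℂ R (S i j k) *
      algebraMap ℂ R (b i) * algebraMap ℂ R (b' j) * y k := fun i => Finset.sum_comm
  rw [Finset.sum_congr rfl fun i _ => h1 i, Finset.sum_comm]

theorem Bg_cp (S : σ → σ → σ → ℂ) (x y z : σ → ℂ) :
    Bg S (cp R x) (cp R y) (cp R z) = algebraMap ℂ R (Bg S x y z) :=
  (map_Bg (Algebra.ofId ℂ R) S x y z).symm

theorem Bg_cf0 (S : σ → σ → σ → ℂ) (b b' : σ → ℂ) (h : ∀ l, cf S b b' l = 0) (y : σ → R) :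
    Bg S (cp R b) (cp R b') y = 0 := by
  rw [Bg_cf]
  exact Finset.sum_eq_zero fun l _ => by rw [h, map_zero, zero_mul]

theorem Bg_line {S : σ → σ → σ → ℂ} (hS : SymG S) (z b : σ → R) (u : R) :
    Bg S (fun i => z i + u * b i) (fun i => z i + u * b i) (fun i => z i + u * b i) =
      Bg S z z z + 3 * u * Bg S z z b + 3 * u ^ 2 * Bg S b b z + u ^ 3 * Bg S b b b := by
  have h1 : (fun i => z i + u * b i) = fun i => 1 * z i + u * b i + 0 * b i := by
    funext i
    ring
  have h2 : Bg S z b b = Bg S b b z := by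
    rw [Bg_swap12 hS z b b, Bg_swap23 hS b z b]
  rw [h1, Bg_span3 hS z b b, h2]
  ring

theorem Bg_line' {S : σ → σ → σ → ℂ} (hS : SymG S) (z : σ → R) (b : σ → ℂ)
    (h : ∀ l, cf S b b l = 0) (u : R) :
    Bg S (fun i => z i + u * cp R b i) (fun i => z i + u * cp R b i)
      (fun i => z i + u * cp R b i) = Bg S z z z + u * (3 * Bg S z z (cp R b)) := by
  rw [Bg_line hS, Bg_cf0 S b b h, Bg_cf0 S b b h]
  ring

theorem cp_self (b : σ → ℂ) : cp ℂ b = b := rfl

end

variable {n P : ℕ}

/-- **Second order base points.** If all the forms vanish to the second order at every base point,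
then the map is not constant on the lines through some base point. -/
theorem exists_pair (hn : 3 ≤ n) {F : MvPolynomial (Fin (n + 2)) ℂ}
    (hF : F.IsHomogeneous 3) (hsm : Sm F) (S : Fin (n + 2) → Fin P → Fin P → Fin P → ℂ)
    (hS : ∀ i, SymG (S i)) (H : Fin (n + 2) → MvPolynomial (Fin P) ℂ)
    (hHS : ∀ i, H i = Bg (S i) X X X) (hH : ∀ i, (H i).IsHomogeneous 3) (hHF : aeval H F = 0)
    (hdom : ∀ (e : ℕ) (Q : MvPolynomial (Fin (n + 2)) ℂ), Q.IsHomogeneous e → aeval H Q = 0 →
      F ∣ Q)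
    (hB : ∀ b : Fin P → ℂ, (∀ i, Bg (S i) b b b = 0) → ∀ i l, cf (S i) b b l = 0) :
    ∃ b ν : Fin P → ℂ, (∀ i, Bg (S i) b b b = 0) ∧
      ∃ i j, Bg (S i) ν ν ν * Bg (S j) ν ν b ≠ Bg (S j) ν ν ν * Bg (S i) ν ν b := by
  classical
  by_contra hcon
  push Not at hcon
  have hev : ∀ (v : Fin P → ℂ) (i), eval v (H i) = Bg (S i) v v v := by
    intro v i
    rw [hHS, ← aeval_eq_eval]
    exact aeval_frmG (S i) v
  have hz : ∀ (b : Fin P → ℂ), (∀ i, Bg (S i) b b b = 0) → ∀ (y : Fin P → ℂ) i,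
      Bg (S i) b b y = 0 := by
    intro b hb y i
    exact Bg_cf0 (R := ℂ) (S i) b b (hB b hb i) y
  let Λ : Submodule ℂ (Fin P → ℂ) :=
    { carrier := {b | ∀ i, Bg (S i) b b b = 0}
      zero_mem' := by
        intro i
        exact Bg_zero1 (S i) _ _
      add_mem' := by
        intro b b' hb hb' i
        have h1 := Bg_line (hS i) b b' 1
        have h2 : (fun i => b i + 1 * b' i) = b + b' := by
          funext i
          rw [one_mul]
          rfl
        rw [h2, hb i, hb' i, hz b hb b' i, hz b' hb' b i] at h1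
        rw [h1]
        ring
      smul_mem' := by
        intro c b hb i
        change Bg (S i) (fun l => c * b l) (fun l => c * b l) (fun l => c * b l) = 0
        rw [Bg_smul1, Bg_smul2, Bg_smul3, hb i]
        ring }
  have hΛ : ∀ b, b ∈ Λ ↔ ∀ i, Bg (S i) b b b = 0 := fun b => Iff.rfl
  obtain ⟨V, hV⟩ := Λ.exists_isCompl
  let e := Module.finBasis ℂ V
  set d := finrank ℂ V with hd
  -- the restriction to the complement
  let Lf : Fin P → MvPolynomial (Fin d) ℂ := fun l => ∑ s, C ((e s : Fin P → ℂ) l) * X s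
  have hLf : ∀ l, (Lf l).IsHomogeneous 1 := by
    intro l
    refine IsHomogeneous.sum _ _ _ fun s _ => ?_
    have h3 := (isHomogeneous_C (Fin d) ((e s : Fin P → ℂ) l)).mul (isHomogeneous_X ℂ s)
    rwa [zero_add] at h3
  let H' : Fin (n + 2) → MvPolynomial (Fin d) ℂ := fun i => aeval Lf (H i)
  have hH' : ∀ i, (H' i).IsHomogeneous 3 := fun i => by
    have h3 := (hH i).aeval Lf hLf
    rwa [one_mul] at h3
  have hpt : ∀ t : Fin d → ℂ, (fun l => eval t (Lf l)) =
      ((∑ s, t s • e s : V) : Fin P → ℂ) := by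
    intro t
    funext l
    simp only [Lf, map_sum, map_mul, eval_C, eval_X]
    rw [Submodule.coe_sum, Finset.sum_apply]
    refine Finset.sum_congr rfl fun s _ => ?_
    rw [Submodule.coe_smul, Pi.smul_apply, smul_eq_mul, mul_comm]
  have hH'e : ∀ (t : Fin d → ℂ) i, eval t (H' i) =
      Bg (S i) ((∑ s, t s • e s : V) : Fin P → ℂ) ((∑ s, t s • e s : V) : Fin P → ℂ)
        ((∑ s, t s • e s : V) : Fin P → ℂ) := by
    intro t i
    have h4 := comp_aeval_apply (f := Lf) (aeval t : MvPolynomial (Fin d) ℂ →ₐ[ℂ] ℂ) (H i)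
    rw [aeval_eq_eval] at h4
    change eval t (aeval Lf (H i)) = _
    rw [h4, ← hpt t, ← hev, aeval_eq_eval]
  have hH'F : aeval H' F = 0 := by
    have h3 := comp_aeval_apply (f := H) (aeval Lf) F
    rw [hHF, map_zero] at h3
    exact h3.symm
  have hH'd : ∀ (q : ℕ) (Q : MvPolynomial (Fin (n + 2)) ℂ), Q.IsHomogeneous q →
      aeval H' Q = 0 → F ∣ Q := by
    intro q Q hQ h0
    refine hdom q Q hQ ?_
    apply MvPolynomial.funext
    intro z
    rw [map_zero]
    have h1 : eval z (aeval H Q) = aeval (fun i => Bg (S i) z z z) Q := by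
      have h4 := comp_aeval_apply (f := H) (aeval z : MvPolynomial (Fin P) ℂ →ₐ[ℂ] ℂ) Q
      rw [aeval_eq_eval] at h4
      rw [h4]
      congr 2
      funext i
      exact hev z i
    rw [h1]
    -- the components of `z`
    obtain ⟨lam, hlam, z0, hz0, rfl⟩ : ∃ lam ∈ Λ, ∃ z0 ∈ V, z0 + lam = z := by
      have h2 : z ∈ Λ ⊔ V := by
        rw [hV.sup_eq_top]
        exact Submodule.mem_top
      obtain ⟨a, ha, b, hb, hab⟩ := Submodule.mem_sup.1 h2
      exact ⟨a, ha, b, hb, by rw [add_comm]; exact hab⟩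
    have h2 : aeval (fun i => Bg (S i) z0 z0 z0) Q = 0 := by
      have h3 : ((∑ s, (e.repr ⟨z0, hz0⟩ s) • e s : V) : Fin P → ℂ) = z0 := by
        rw [e.sum_repr]
      have h4 := comp_aeval_apply (f := H') (aeval (fun s => e.repr ⟨z0, hz0⟩ s) :
        MvPolynomial (Fin d) ℂ →ₐ[ℂ] ℂ) Q
      rw [h0, map_zero] at h4
      refine Eq.trans ?_ h4.symm
      congr 2
      funext i
      have h5 : (aeval (fun s => e.repr ⟨z0, hz0⟩ s) : MvPolynomial (Fin d) ℂ →ₐ[ℂ] ℂ) (H' i) =
          eval (fun s => e.repr ⟨z0, hz0⟩ s) (H' i) := by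
        rw [aeval_eq_eval]
      rw [h5, hH'e, h3]
    have h3 : ∀ i, Bg (S i) (z0 + lam) (z0 + lam) (z0 + lam) =
        Bg (S i) z0 z0 z0 + 3 * Bg (S i) z0 z0 lam := by
      intro i
      have h4 := Bg_line (hS i) z0 lam 1
      have h5 : (fun i => z0 i + 1 * lam i) = z0 + lam := by
        funext i
        rw [one_mul]
        rfl
      rw [h5, hlam i, hz lam hlam z0 i] at h4
      rw [h4]
      ring
    by_cases h4 : ∃ i0, Bg (S i0) z0 z0 z0 ≠ 0
    · obtain ⟨i0, hi0⟩ := h4
      have h5 : (fun i => Bg (S i) (z0 + lam) (z0 + lam) (z0 + lam)) = fun i =>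
          (1 + 3 * Bg (S i0) z0 z0 lam / Bg (S i0) z0 z0 z0) * Bg (S i) z0 z0 z0 := by
        funext i
        rw [h3]
        have h6 := hcon lam z0 hlam i0 i
        field_simp
        linear_combination 3 * h6
      rw [h5, aeval_smul_form hQ, h2, mul_zero]
    · push Not at h4
      have h5 : (fun i => Bg (S i) (z0 + lam) (z0 + lam) (z0 + lam)) = fun i =>
          Bg (S i) z0 z0 z0 := by
        have h6 : z0 = 0 := by
          have h7 : z0 ∈ Λ ⊓ V := ⟨h4, hz0⟩
          rw [hV.inf_eq_bot] at h7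
          exact h7
        funext i
        rw [h3, h4 i, h6]
        have h8 : Bg (S i) (0 : Fin P → ℂ) 0 lam = 0 := Bg_zero1 (S i) _ _
        rw [h8]
        ring
      rw [h5]
      exact h2
  obtain ⟨b', hb', hbH⟩ := base_pt hn hF hsm H' hH' hH'F hH'd
  apply hb'
  have h1 : ((∑ s, b' s • e s : V) : Fin P → ℂ) ∈ Λ ⊓ V :=
    ⟨fun i => by rw [← hH'e]; exact hbH i, (∑ s, b' s • e s : V).2⟩
  rw [hV.inf_eq_bot, Submodule.mem_bot] at h1
  have h2 : (∑ s, b' s • e s : V) = 0 := Subtype.ext h1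
  have h3 := Fintype.linearIndependent_iff.1 e.linearIndependent b' h2
  funext s
  exact h3 s

/-- the degree is even in this case -/
theorem case_two (hn : 3 ≤ n) {F : MvPolynomial (Fin (n + 2)) ℂ}
    (hF : F.IsHomogeneous 3) (hsm : Sm F) (S : Fin (n + 2) → Fin P → Fin P → Fin P → ℂ)
    (hS : ∀ i, SymG (S i)) (H : Fin (n + 2) → MvPolynomial (Fin P) ℂ)
    (hHS : ∀ i, H i = Bg (S i) X X X) (hH : ∀ i, (H i).IsHomogeneous 3) (hHF : aeval H F = 0)
    (hdom : ∀ (e : ℕ) (Q : MvPolynomial (Fin (n + 2)) ℂ), Q.IsHomogeneous e → aeval H Q = 0 →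
      F ∣ Q)
    (hB : ∀ b : Fin P → ℂ, (∀ i, Bg (S i) b b b = 0) → ∀ i l, cf (S i) b b l = 0)
    {M : Type} [Field M] [Algebra ℂ M] (z : Fin P → M) (x : Fin (n + 2) → M)
    (hx : ∀ i, x i = aeval z (H i)) (hG : Gp F x) : 2 ∣ finrank (ratioField x) M := by
  classical
  obtain ⟨b, ν, hb, i, j, hij⟩ := exists_pair hn hF hsm S hS H hHS hH hHF hdom hB
  have hevR : ∀ {R : Type} [CommRing R] [Algebra ℂ R] (v : Fin P → R) (i),
      aeval v (H i) = Bg (S i) v v v := by
    intro R _ _ v i
    rw [hHS]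
    exact aeval_frmG (S i) v
  set zs : Fin P → Polynomial M := fun l => (1 - Polynomial.X) * Polynomial.C (z l) +
    Polynomial.X * Polynomial.C (algebraMap ℂ M (ν l)) with hzs
  have hz0 : (fun l => (zs l).eval 0) = z := by
    funext l
    simp [hzs]
  have hz1 : (fun l => (zs l).eval 1) = cp M ν := by
    funext l
    simp [hzs, cp]
  let ε : M → (Polynomial M →ₐ[ℂ] M) := fun c => (Polynomial.aeval c).restrictScalars ℂ
  have hε : ∀ (c : M) (f : Polynomial M), ε c f = f.eval c := by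
    intro c f
    change Polynomial.aeval c f = _
    rw [Polynomial.coe_aeval_eq_eval]
  have hmap : ∀ (c : M) (i) (u v w : Fin P → Polynomial M), (Bg (S i) u v w).eval c =
      Bg (S i) (fun l => (u l).eval c) (fun l => (v l).eval c) (fun l => (w l).eval c) := by
    intro c i u v w
    rw [← hε, map_Bg]
    simp only [hε]
  have hcb : ∀ c : M, (fun l => (cp (Polynomial M) b l).eval c) = cp M b := by
    intro c
    funext l
    unfold cp
    rw [Polynomial.algebraMap_apply, Polynomial.eval_C]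
  set p : Fin (n + 2) → Polynomial M := fun i => Bg (S i) zs zs zs with hp
  set q : Fin (n + 2) → Polynomial M := fun i => 3 * Bg (S i) zs zs (cp (Polynomial M) b) with hq
  have hp0 : ∀ i, (p i).eval 0 = x i := by
    intro i
    rw [hp]
    simp only
    rw [hmap, hz0, hx, hevR]
  obtain ⟨v, hv, hline⟩ := line_limit (r := n + 1) hF p q (by
    intro u
    have h1 : (fun i => p i + u * q i) = fun i =>
        aeval (fun l => zs l + u * cp (Polynomial M) b l) (H i) := by
      funext i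
      rw [hevR, Bg_line' (hS i) zs b (hB b hb i)]
    rw [h1]
    have h2 := comp_aeval_apply (f := H)
      (aeval (fun l => zs l + u * cp (Polynomial M) b l)) F
    rw [hHF, map_zero] at h2
    exact h2.symm) 0 (by
    rw [hp0]
    exact coord_ne_zero hF (by norm_num) x hG.2 0) ⟨i, j, by
    intro h0
    apply hij
    have h1 := congrArg (fun f => f.eval 1) h0
    simp only [hp, hq, Polynomial.eval_mul, hmap, hz1, hcb, Bg_cp] at h1
    have h3 : (3 : Polynomial M).eval 1 = 3 := Polynomial.eval_ofNat 3 1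
    rw [h3] at h1
    apply (algebraMap ℂ M).injective
    rw [map_mul, map_mul]
    have h4 : (3 : M) ≠ 0 := by
      have h7 := ne_of_C (R := M) (z := 3) (by norm_num)
      rwa [map_ofNat] at h7
    apply mul_left_cancel₀ h4
    linear_combination h1⟩
  have h1 : (fun i => (p i).eval 0) = x := funext hp0
  rw [h1] at hv
  simp only [hp0] at hline
  exact line_even (r := n + 1) hF hsm x v hG hv hline

end

end Pool.Agent.U723.CU
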