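import Mathlib
import Pool.Agent.R845.E3.All
import Pool.Agent.R845.E3.Sections
import Pool.Agent.U351.CH.Main
import Pool.Agent.U723.CU.Forms

/-!
# Points of odd degree over the generic point for maps given by polynomials of degree at most three
-/

set_option autoImplicit false

namespace Pool.Agent.U723.CU

open MvPolynomial Pool.Agent.TH314.PD Module Pool.Agent.Y201.C3 IntermediateField
open Pool.Agent.R845.T2 Pool.Agent.R845.E3

noncomputable section

variable {n P : ℕ}

/-- the conics given by the lines through a base point -/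
theorem conic_id {F : MvPolynomial (Fin (n + 2)) ℂ}
    (S : Fin (n + 2) → Fin P → Fin P → Fin P → ℂ)
    (hS : ∀ i, SymG (S i)) (H : Fin (n + 2) → MvPolynomial (Fin P) ℂ)
    (hHS : ∀ i, H i = Bg (S i) X X X) (hHF : aeval H F = 0) (b : Fin P → ℂ)
    (hb : ∀ i, Bg (S i) b b b = 0) {M : Type} [Field M] [Algebra ℂ M] (w : Fin P → M) :
    aeval (fun i => Polynomial.X ^ 2 *
      Polynomial.C (∑ l, w l * algebraMap ℂ M (3 * cf (S i) b b l)) +
      Polynomial.X * Polynomial.C (3 * Bg (S i) w w (cp M b)) +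
      Polynomial.C (aeval w (H i))) F = 0 := by
  classical
  have hevR : ∀ {R : Type} [CommRing R] [Algebra ℂ R] (v : Fin P → R) (i),
      aeval v (H i) = Bg (S i) v v v := by
    intro R _ _ v i
    rw [hHS]
    exact aeval_frmG (S i) v
  have h2 := comp_aeval_apply (f := H)
    (aeval (fun l => Polynomial.C (w l) + Polynomial.X * cp (Polynomial M) b l)) F
  rw [hHF, map_zero] at h2
  refine Eq.trans ?_ h2.symm
  congr 2
  funext i
  rw [hevR w i, hevR (fun l => Polynomial.C (w l) + Polynomial.X * cp (Polynomial M) b l) i,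
    Bg_line (hS i)]
  have hC : ∀ u v y : Fin P → M, Bg (S i) (fun i => Polynomial.C (u i))
      (fun i => Polynomial.C (v i)) (fun i => Polynomial.C (y i)) =
      Polynomial.C (Bg (S i) u v y) := fun u v y =>
    (map_Bg (Polynomial.CAlgHom : M →ₐ[ℂ] Polynomial M) (S i) u v y).symm
  have hcp : cp (Polynomial M) b = fun l => Polynomial.C (cp M b l) := by
    funext l
    unfold cp
    rw [Polynomial.algebraMap_apply]
  have h3 : Bg (S i) (cp (Polynomial M) b) (cp (Polynomial M) b) (cp (Polynomial M) b) = 0 := by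
    rw [Bg_cp, hb i, map_zero]
  have h4 : Bg (S i) (cp (Polynomial M) b) (cp (Polynomial M) b) (fun l => Polynomial.C (w l)) =
      Polynomial.C (∑ l, algebraMap ℂ M (cf (S i) b b l) * w l) := by
    rw [hcp, hC, Bg_cf]
  have h5 : Bg (S i) (fun l => Polynomial.C (w l)) (fun l => Polynomial.C (w l))
      (cp (Polynomial M) b) = Polynomial.C (Bg (S i) w w (cp M b)) := by
    rw [hcp, hC]
  have h6 : Polynomial.C (∑ l, w l * algebraMap ℂ M (3 * cf (S i) b b l)) =
      3 * Polynomial.C (∑ l, algebraMap ℂ M (cf (S i) b b l) * w l) := by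
    have o3 : (3 : Polynomial M) = Polynomial.C 3 := rfl
    rw [o3, ← map_mul, Finset.mul_sum]
    congr 1
    refine Finset.sum_congr rfl fun l _ => ?_
    rw [map_mul, map_ofNat]
    ring
  have h7 : Polynomial.C (3 * Bg (S i) w w (cp M b)) =
      3 * Polynomial.C (Bg (S i) w w (cp M b)) := by
    rw [map_mul]
    rfl
  rw [h3, h4, h5, h6, h7, hC]
  ring

/-- transformation of a conic -/
theorem tp_conic {k m : ℕ} {M : Type} [Field M] [Algebra ℂ M]
    (U : Fin (k + 1) → Fin (m + 1) → ℂ) (x y z : Fin (k + 1 + (m + 1)) → M) :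
    tp U (fun i => Polynomial.X ^ 2 * Polynomial.C (x i) + Polynomial.X * Polynomial.C (y i) +
      Polynomial.C (z i)) = fun i => Polynomial.X ^ 2 * Polynomial.C (tp U x i) +
      Polynomial.X * Polynomial.C (tp U y i) + Polynomial.C (tp U z i) := by
  funext i
  unfold tp
  refine Fin.addCases (fun j => ?_) (fun j => ?_) i
  · simp only [Fin.append_left]
  · simp only [Fin.append_right]
    have hC : ∀ c : ℂ, algebraMap ℂ (Polynomial M) c = Polynomial.C (algebraMap ℂ M c) :=
      fun c => by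
        rw [Polynomial.algebraMap_apply]
    simp only [hC, map_sub, map_sum, map_mul, mul_sub, mul_add, Finset.mul_sum,
      Finset.sum_add_distrib]
    have e1 : ∀ f : Fin (k + 1) → Polynomial M, ∑ i, Polynomial.C (algebraMap ℂ M (U i j)) *
        (Polynomial.X ^ 2 * f i) = ∑ i, Polynomial.X ^ 2 *
          (Polynomial.C (algebraMap ℂ M (U i j)) * f i) := fun f =>
      Finset.sum_congr rfl fun i _ => by ring
    have e2 : ∀ f : Fin (k + 1) → Polynomial M, ∑ i, Polynomial.C (algebraMap ℂ M (U i j)) *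
        (Polynomial.X * f i) = ∑ i, Polynomial.X *
          (Polynomial.C (algebraMap ℂ M (U i j)) * f i) := fun f =>
      Finset.sum_congr rfl fun i _ => by ring
    rw [e1, e2]
    ring

set_option maxHeartbeats 4000000 in
/-- **A base point at which one of the forms vanishes to the first order.** -/
theorem case_one {F : MvPolynomial (Fin (n + 2)) ℂ}
    (hF : F.IsHomogeneous 3) (hsm : Sm F) (S : Fin (n + 2) → Fin P → Fin P → Fin P → ℂ)
    (hS : ∀ i, SymG (S i)) (H : Fin (n + 2) → MvPolynomial (Fin P) ℂ)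
    (hHS : ∀ i, H i = Bg (S i) X X X) (hHF : aeval H F = 0) (b : Fin P → ℂ)
    (hb : ∀ i, Bg (S i) b b b = 0) (hb1 : ∃ i l, cf (S i) b b l ≠ 0)
    {M : Type} [Field M] [Algebra ℂ M] (z : Fin P → M) (hz : LinearIndependent ℂ z)
    (x : Fin (n + 2) → M) (hx : ∀ i, x i = aeval z (H i)) (hG : Gp F x)
    (hodd : Odd (finrank (ratioField x) M)) :
    ∃ (k m : ℕ) (σ : Fin (k + 1 + (m + 1)) ≃ Fin (n + 2)) (U : Fin (k + 1) → Fin (m + 1) → ℂ),
      VanW (shear U (rename σ.symm F)) ∧ Iso (shear U (rename σ.symm F)) := by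
  classical
  have hF0 : F ≠ 0 := ne_zero_of_smooth (m := n + 1) hsm
  let A : Fin (n + 2) → Fin P → ℂ := fun i l => 3 * cf (S i) b b l
  have hA0 : A ≠ 0 := by
    intro h0
    obtain ⟨i, l, hil⟩ := hb1
    have h1 : 3 * cf (S i) b b l = 0 := congrFun (congrFun h0 i) l
    exact hil ((mul_eq_zero.1 h1).resolve_left (by norm_num))
  have hA : ∀ a : Fin P → ℂ, eval (fun i => ∑ l, a l * A i l) F = 0 := by
    intro a
    obtain ⟨T, hT, hFT⟩ := exists_tri F hF
    obtain ⟨-, -, -, -, -, -, h6⟩ := conic_rel hT hFT _ _ _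
      (conic_id (M := ℂ) S hS H hHS hHF b hb a)
    rw [← aeval_eq_eval]
    conv_lhs => rw [hFT]
    rw [aeval_frmG]
    exact h6
  obtain ⟨k, m, σ, U, hW, htp⟩ := adapt0 hF0 A hA0 hA
  refine ⟨k, m, σ, U, hW, ?_⟩
  set a : Fin (n + 2) → M := fun i => ∑ l, z l * algebraMap ℂ M (A i l) with ha
  set β : Fin (n + 2) → M := fun i => 3 * Bg (S i) z z (cp M b) with hβ
  have hconic : aeval (fun i => Polynomial.X ^ 2 * Polynomial.C (a i) +
      Polynomial.X * Polynomial.C (β i) + Polynomial.C (x i)) F = 0 := by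
    have h1 := conic_id (F := F) S hS H hHS hHF b hb z
    simp only [hx]
    exact h1
  have hane : a ≠ 0 := by
    intro h0
    apply hA0
    funext i l
    have h1 : ∑ l, A i l • z l = 0 := by
      have h2 := congrFun h0 i
      rw [ha] at h2
      simp only [Pi.zero_apply] at h2
      rw [← h2]
      refine Finset.sum_congr rfl fun l _ => ?_
      rw [Algebra.smul_def, mul_comm]
    exact Fintype.linearIndependent_iff.1 hz (A i) h1 l
  have hF1h : (rename σ.symm F).IsHomogeneous 3 := hF.rename_isHomogeneous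
  set x1 : Fin (k + 1 + (m + 1)) → M := fun i => x (σ i) with hx1
  have hx1G : Gp (rename σ.symm F) x1 := by
    have h1 := gp_rename σ.symm hG
    simpa only [Equiv.symm_symm] using h1
  have hx1r : ratioField x1 = ratioField x := by
    have h1 := ratioField_perm σ.symm x
    simpa only [Equiv.symm_symm] using h1
  have hx2G : Gp (shear U (rename σ.symm F)) (tp U x1) := gp_tp U hx1G
  have hx1n : ∀ i, x1 i ≠ 0 := coord_ne_zero hF1h (by norm_num) x1 hx1G.2
  have hx2n : ∀ i, tp U x1 i ≠ 0 := coord_ne_zero (shear_hom hF1h U) (by norm_num) _ hx2G.2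
  have hx2r : ratioField (tp U x1) = ratioField x1 :=
    ratioField_tp U x1 ⟨_, hx1n (Fin.castAdd (m + 1) 0)⟩ ⟨_, hx2n (Fin.castAdd (m + 1) 0)⟩
  set α : Fin (k + 1) → M := fun i => a (σ (Fin.castAdd (m + 1) i)) with hα
  have htpa : tp U (fun i => a (σ i)) = Fin.append α (0 : Fin (m + 1) → M) := by
    funext i
    refine Fin.addCases (fun j => ?_) (fun j => ?_) i
    · rw [Fin.append_left]
      unfold tp
      rw [Fin.append_left]
    · rw [Fin.append_right]
      exact htp M z j
  have hα0 : α ≠ 0 := by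
    intro h0
    apply hane
    funext i
    obtain ⟨i', rfl⟩ := σ.surjective i
    refine Fin.addCases (fun j => ?_) (fun j => ?_) i'
    · exact congrFun h0 j
    · have h1 := congrFun htpa (Fin.natAdd (k + 1) j)
      rw [Fin.append_right] at h1
      unfold tp at h1
      rw [Fin.append_right, Pi.zero_apply, Finset.sum_eq_zero, sub_zero] at h1
      · exact h1
      · intro i _
        have h2 : a (σ (Fin.castAdd (m + 1) i)) = 0 := congrFun h0 i
        change algebraMap ℂ M (U i j) * a (σ (Fin.castAdd (m + 1) i)) = 0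
        rw [h2, mul_zero]
  refine ccp spr desc (shear_hom hF1h U) (sm_shear (sm_rename σ.symm hsm) U) hW (tp U x1) hx2G
    (by rw [hx2r, hx1r]; exact hodd) α hα0 (tp U fun i => β (σ i)) ?_
  rw [← htpa, ← tp_conic, aeval_tp, aeval_rename]
  rw [← hconic]
  congr 2
  funext i
  simp only [Function.comp_apply, Equiv.apply_symm_apply, hx1]

/-- **Cubic forms in any number of variables.** -/
theorem forms_iso (hn : 3 ≤ n) {F : MvPolynomial (Fin (n + 2)) ℂ}
    (hF : F.IsHomogeneous 3) (hsm : Sm F) (H : Fin (n + 2) → MvPolynomial (Fin P) ℂ)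
    (hH : ∀ i, (H i).IsHomogeneous 3) (hHF : aeval H F = 0)
    {M : Type} [Field M] [Algebra ℂ M] (z : Fin P → M)
    (x : Fin (n + 2) → M) (hx : ∀ i, x i = aeval z (H i)) (hG : Gp F x)
    (hodd : Odd (finrank (ratioField x) M)) :
    ∃ (k m : ℕ) (σ : Fin (k + 1 + (m + 1)) ≃ Fin (n + 2)) (U : Fin (k + 1) → Fin (m + 1) → ℂ),
      VanW (shear U (rename σ.symm F)) ∧ Iso (shear U (rename σ.symm F)) := by
  classical
  -- reduction to linearly independent coordinates
  let V : Submodule ℂ M := Submodule.span ℂ (Set.range z)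
  have hV : Module.Finite ℂ V := Module.Finite.span_of_finite ℂ (Set.finite_range z)
  let e := Module.finBasis ℂ V
  set d := finrank ℂ V with hd
  have hzV : ∀ l, z l ∈ V := fun l => Submodule.subset_span ⟨l, rfl⟩
  let z' : Fin d → M := fun s => (e s : M)
  have hz' : LinearIndependent ℂ z' :=
    e.linearIndependent.map' V.subtype (Submodule.ker_subtype V)
  let Cm : Fin P → Fin d → ℂ := fun l s => e.repr ⟨z l, hzV l⟩ s
  have hzz : ∀ l, z l = ∑ s, algebraMap ℂ M (Cm l s) * z' s := by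
    intro l
    have h1 : ((∑ s, (e.repr ⟨z l, hzV l⟩ s) • e s : V) : M) = z l := by
      rw [e.sum_repr]
    rw [Submodule.coe_sum] at h1
    rw [← h1]
    refine Finset.sum_congr rfl fun s _ => ?_
    rw [Submodule.coe_smul, Algebra.smul_def]
  let Lf : Fin P → MvPolynomial (Fin d) ℂ := fun l => ∑ s, C (Cm l s) * X s
  have hLf : ∀ l, (Lf l).IsHomogeneous 1 := by
    intro l
    refine IsHomogeneous.sum _ _ _ fun s _ => ?_
    have h3 := (isHomogeneous_C (Fin d) (Cm l s)).mul (isHomogeneous_X ℂ s)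
    rwa [zero_add] at h3
  let H' : Fin (n + 2) → MvPolynomial (Fin d) ℂ := fun i => aeval Lf (H i)
  have hH' : ∀ i, (H' i).IsHomogeneous 3 := fun i => by
    have h3 := (hH i).aeval Lf hLf
    rwa [one_mul] at h3
  have hH'F : aeval H' F = 0 := by
    have h3 := comp_aeval_apply (f := H) (aeval Lf) F
    rw [hHF, map_zero] at h3
    exact h3.symm
  have hx' : ∀ i, x i = aeval z' (H' i) := by
    intro i
    have h3 := comp_aeval_apply (f := Lf) (aeval z' : MvPolynomial (Fin d) ℂ →ₐ[ℂ] M) (H i)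
    change _ = aeval z' (aeval Lf (H i))
    rw [h3, hx]
    congr 2
    funext l
    rw [hzz l]
    simp only [Lf, map_sum, map_mul, aeval_C, aeval_X]
  have hdom : ∀ (q : ℕ) (Q : MvPolynomial (Fin (n + 2)) ℂ), Q.IsHomogeneous q →
      aeval H' Q = 0 → F ∣ Q := by
    intro q Q hQ h0
    refine hG.2 q Q hQ ?_
    have h3 := comp_aeval_apply (f := H') (aeval z' : MvPolynomial (Fin d) ℂ →ₐ[ℂ] M) Q
    rw [h0, map_zero] at h3
    rw [funext hx']
    exact h3.symm
  choose S hS hHS using fun i => exists_tri (H' i) (hH' i)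
  by_cases hB : ∀ b : Fin d → ℂ, (∀ i, Bg (S i) b b b = 0) → ∀ i l, cf (S i) b b l = 0
  · exfalso
    have h1 := case_two hn hF hsm S hS H' hHS hH' hH'F hdom hB z' x hx' hG
    exact (Nat.not_even_iff_odd.2 hodd) (even_iff_two_dvd.2 h1)
  · push Not at hB
    obtain ⟨b, hb, hb1⟩ := hB
    exact case_one hF hsm S hS H' hHS hH'F b hb hb1 z' hz' x hx' hG hodd

/-- **Polynomials of degree at most three in any number of variables.** -/
theorem poly_iso (hn : 3 ≤ n) {F : MvPolynomial (Fin (n + 2)) ℂ}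
    (hF : F.IsHomogeneous 3) (hsm : Sm F) {N : ℕ} (G : Fin (n + 2) → MvPolynomial (Fin N) ℂ)
    (hGd : ∀ i, (G i).totalDegree ≤ 3) (hGF : aeval G F = 0)
    {M : Type} [Field M] [Algebra ℂ M] (τ : Fin N → M)
    (hG : Gp F (fun i => aeval τ (G i)))
    (hodd : Odd (finrank (ratioField fun i => aeval τ (G i)) M)) :
    ∃ (k m : ℕ) (σ : Fin (k + 1 + (m + 1)) ≃ Fin (n + 2)) (U : Fin (k + 1) → Fin (m + 1) → ℂ),
      VanW (shear U (rename σ.symm F)) ∧ Iso (shear U (rename σ.symm F)) := by
  classical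
  choose H hH hHG using fun i => hom3 (G i) (hGd i)
  have hHF : aeval H F = 0 := by
    have h1 : (aeval H F).IsHomogeneous (3 * 3) := hF.aeval H hH
    refine hom_zero h1 ?_
    rw [comp_aeval_apply]
    rw [show (fun i => aeval (Fin.cons 1 X : Fin (N + 1) → MvPolynomial (Fin N) ℂ) (H i)) = G
      from funext hHG]
    exact hGF
  refine forms_iso hn hF hsm H hH hHF (Fin.cons 1 τ : Fin (N + 1) → M)
    (fun i => aeval τ (G i)) (fun i => ?_) hG hodd
  have h3 := comp_aeval_apply (f := (Fin.cons 1 X : Fin (N + 1) → MvPolynomial (Fin N) ℂ))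
    (aeval τ : MvPolynomial (Fin N) ℂ →ₐ[ℂ] M) (H i)
  rw [← hHG, h3]
  congr 2
  funext l
  refine Fin.cases ?_ (fun s => ?_) l
  · rw [Fin.cons_zero, Fin.cons_zero, map_one]
  · rw [Fin.cons_succ, Fin.cons_succ, aeval_X]

/-- a linear subspace whose quadric bundle has a rational section -/
theorem poly_sec (hn : 3 ≤ n) {F : MvPolynomial (Fin (n + 2)) ℂ}
    (hF : F.IsHomogeneous 3) (hsm : Sm F) {N : ℕ} (G : Fin (n + 2) → MvPolynomial (Fin N) ℂ)
    (hGd : ∀ i, (G i).totalDegree ≤ 3) (hGF : aeval G F = 0)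
    {M : Type} [Field M] [Algebra ℂ M] (τ : Fin N → M)
    (hG : Gp F (fun i => aeval τ (G i)))
    (hodd : Odd (finrank (ratioField fun i => aeval τ (G i)) M)) :
    ∃ (k m : ℕ) (v : Fin (k + 1) → Fin (n + 2) → ℂ), k + m = n ∧ 1 ≤ k ∧ k ≤ m ∧
      Pool.Agent.U351.CH.Lin F v ∧ Pool.Agent.U351.CH.Sec m F v := by
  obtain ⟨k, m, σ, U, hW, hiso⟩ := poly_iso hn hF hsm G hGd hGF τ hG hodd
  obtain ⟨h1, h2, h3, h4, h5⟩ := Pool.Agent.U351.CH.sec_of_iso hn hF hsm σ U hW hiso
  exact ⟨k, m, _, h1, h2, h3, h4, h5⟩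

/-- very general cubic hypersurfaces -/
theorem poly_even (hn : 3 ≤ n) {F : MvPolynomial (Fin (n + 2)) ℂ}
    (hF : F.IsHomogeneous 3) (hsm : Sm F)
    (hind : AlgebraicIndependent ℚ
      (fun β : {β : Fin (n + 2) →₀ ℕ // β.degree = 3} => coeff β.1 F)) {N : ℕ}
    (G : Fin (n + 2) → MvPolynomial (Fin N) ℂ)
    (hGd : ∀ i, (G i).totalDegree ≤ 3) (hGF : aeval G F = 0)
    {M : Type} [Field M] [Algebra ℂ M] (τ : Fin N → M)
    (hG : Gp F (fun i => aeval τ (G i))) :
    Even (finrank (ratioField fun i => aeval τ (G i)) M) := by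
  rw [← Nat.not_odd_iff_even]
  intro hodd
  obtain ⟨k, m, σ, U, hW, hiso⟩ := poly_iso hn hF hsm G hGd hGF τ hG hodd
  have hkm : k + m = n := by
    have h1 := Fintype.card_congr σ
    rw [Fintype.card_fin, Fintype.card_fin] at h1
    omega
  exact at_all k m (by omega) _ hF.rename_isHomogeneous (sm_rename σ.symm hsm)
    (ind_rename σ.symm hind) U hW hiso

end

end Pool.Agent.U723.CU
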